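import Pool.Agent.K1H45.NU.Wsu
import Pool.Agent.K1H54.NU.Stm6

/-!
Leray-Hopf solutions with the equation at every time satisfy it in integrated form (`S_FLHI`).
-/

open Set Filter Topology MeasureTheory
open scoped ENNReal

set_option autoImplicit false

namespace Pool.Agent.K1H11.NU

open Pool.Agent.Y5 Pool.Agent.Y5.D Pool.Agent.Y5.E Pool.Agent.K1H54.LO Pool.Agent.K1H54.L2
  Pool.Agent.K1H54.NU Pool.Agent.K1H45.NU
open Pool.Agent.K1H17.UN (fin_rap l2_nonneg)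

/-- the bound of the nonlinear terms tested with a smooth family -/
lemma tri_bd {C : ℝ} {n : Fam → Fam → Fam → ℝ} (h : Tri C n) {V Z : Fam} (hV : OT V)
    (sV : Summable fun k => ‖V k‖ ^ 2) (hZ : OT Z) (rZ : Rap Z) {e₀ : ℝ}
    (he : ∑' k, ‖V k‖ ^ 2 ≤ e₀) {L : ℝ}
    (hL : Tendsto (fun K : ℕ => n (trn K V) (trn K V) Z) atTop (𝓝 L)) :
    |L| ≤ C * (e₀ * A1 1 Z) := by
  have hA := Pool.Agent.K1H30.OP.A1_nonneg 1 Z
  refine le_of_tendsto hL.abs (Eventually.of_forall fun K => ?_)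
  have oK := trn_ot K hV
  have rK := trn_rap K V
  have h1 := h.low _ _ _ oK rK hZ rZ oK rK
  have c2 : l2 (trn K V) ^ 2 ≤ e₀ := by
    refine le_trans ?_ he
    rw [l2_sq]
    refine (Pool.Agent.K1H30.OP.sq0 rK).tsum_le_tsum (fun k => ?_) sV
    by_cases hk : k ∈ Fb K
    · rw [trn_in V hk]
    · rw [trn_out V hk, norm_zero]
      have : 0 ≤ ‖V k‖ ^ 2 := sq_nonneg _
      simpa using this
  rw [h.skew _ _ _ oK rK oK rK hZ rZ, abs_neg]
  refine h1.trans (mul_le_mul_of_nonneg_left ?_ h.C0)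
  calc l2 (trn K V) * A1 1 Z * l2 (trn K V) = l2 (trn K V) ^ 2 * A1 1 Z := by ring
    _ ≤ e₀ * A1 1 Z := mul_le_mul_of_nonneg_right c2 hA

/-- a bound of the dissipation term tested with a trigonometric polynomial -/
lemma lpD_bd {D : Z3 → ℝ} {V Z : Fam} (sV : Summable fun k => ‖V k‖ ^ 2)
    (hZf : {k | Z k ≠ 0}.Finite) {e₀ : ℝ} (he : ∑' k, ‖V k‖ ^ 2 ≤ e₀) :
    |lpD D V Z| ≤ ∑ k ∈ hZf.toFinset, |D k| * (√e₀ * ‖Z k‖) := by
  have h1 : lpD D V Z = ∑ k ∈ hZf.toFinset, D k * (inner ℝ (V k) (Z k) : ℝ) := by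
    unfold lpD
    rw [tsum_eq_sum (s := hZf.toFinset)]
    intro k hk
    have hk' : Z k = 0 := by
      by_contra h
      exact hk (hZf.mem_toFinset.2 h)
    rw [hk', inner_zero_right, mul_zero]
  rw [h1]
  refine (Finset.abs_sum_le_sum_abs _ _).trans (Finset.sum_le_sum fun k _ => ?_)
  rw [abs_mul]
  refine mul_le_mul_of_nonneg_left ?_ (abs_nonneg _)
  refine (abs_real_inner_le_norm _ _).trans (mul_le_mul_of_nonneg_right ?_ (norm_nonneg _))
  refine Real.le_sqrt_of_sq_le ?_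
  exact (sV.le_tsum k (fun _ _ => by positivity)).trans he

/-- **FLHI** -/
theorem t_FLHI : S_FLHI := by
  intro s δ C D Q β V hSym hP hV
  have hD := hSym.nonneg
  have tri := tri_of hP
  have hex : ∀ (t : ℝ) (Z : Fam), ∃ L : ℝ, OT Z → {k | Z k ≠ 0}.Finite → 0 ≤ t →
      Tendsto (fun K : ℕ => bil (trn K (V t)) (trn K (V t)) Z + β (trn K (V t)) (trn K (V t)) Z)
        atTop (𝓝 L) ∧
      HasDerivWithinAt (fun τ => pair (V τ) Z) (-lpD D (V t) Z + L) (Ici 0) t := by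
    intro t Z
    by_cases h : OT Z ∧ {k | Z k ≠ 0}.Finite ∧ 0 ≤ t
    · obtain ⟨L, hL⟩ := hV.eqn Z h.1 h.2.1 t h.2.2
      exact ⟨L, fun _ _ _ => hL⟩
    · exact ⟨0, fun a b c => absurd ⟨a, b, c⟩ h⟩
  choose LV hLV using hex
  have cV : ∀ k, ContinuousOn (fun τ => V τ k) (Ici 0) := fun k =>
    cont_coef (fun τ hτ => hV.ot τ hτ) (fun Z hZ hZf τ hτ =>
      (hLV τ Z hZ hZf hτ).2.continuousWithinAt) k
  obtain ⟨e₀, he₀⟩ : ∃ e, e = ∑' k, ‖V 0 k‖ ^ 2 := ⟨_, rfl⟩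
  have EV : ∀ t, 0 ≤ t → Summable (fun k => ‖V t k‖ ^ 2) ∧ ∑' k, ‖V t k‖ ^ 2 ≤ e₀ := by
    intro t ht
    obtain ⟨h1, h2⟩ := energyV hD hV.fin hV.e0 cV ht
    refine ⟨h1, ?_⟩
    have h3 := h2 0
    have h4 : 0 ≤ ∫ τ in (0 : ℝ)..t, ∑ k ∈ Fb 0, D k * ‖V τ k‖ ^ 2 :=
      intervalIntegral.integral_nonneg ht fun τ _ =>
        Finset.sum_nonneg fun k _ => mul_nonneg (hD k) (sq_nonneg _)
    rw [he₀]
    linarith
  refine ⟨hV.ot, hV.fin, ?_, hV.e0, hV.es⟩
  intro Z hZ hZf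
  have rZ := fin_rap hZf
  refine ⟨fun τ => LV τ Z, ?_, ?_⟩
  · refine (ae_restrict_iff' measurableSet_Ioi).2 (Eventually.of_forall fun τ hτ => ?_)
    exact (hLV τ Z hZ hZf (le_of_lt hτ)).1
  · intro t ht
    have hder : ∀ x, 0 < x → HasDerivAt (fun τ => pair (V τ) Z)
        (-lpD D (V x) Z + LV x Z) x := fun x hx =>
      (hLV x Z hZ hZf hx.le).2.hasDerivAt (Ici_mem_nhds hx)
    -- measurability
    have hm : AEStronglyMeasurable (fun τ => -lpD D (V τ) Z + LV τ Z)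
        (volume.restrict (Ioc 0 t)) := by
      have h1 : AEStronglyMeasurable (deriv fun τ => pair (V τ) Z)
          (volume.restrict (Ioc 0 t)) := (measurable_deriv _).aestronglyMeasurable
      refine h1.congr ?_
      refine (ae_restrict_iff' measurableSet_Ioc).2 (Eventually.of_forall fun τ hτ => ?_)
      exact (hder τ hτ.1).deriv
    -- boundedness
    have hint : IntervalIntegrable (fun τ => -lpD D (V τ) Z + LV τ Z) volume 0 t := by
      rw [intervalIntegrable_iff_integrableOn_Ioc_of_le ht]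
      refine IntegrableOn.of_bound measure_Ioc_lt_top hm
        (∑ k ∈ hZf.toFinset, |D k| * (√e₀ * ‖Z k‖) + (2 * Real.pi + |C|) * (e₀ * A1 1 Z)) ?_
      refine (ae_restrict_iff' measurableSet_Ioc).2 (Eventually.of_forall fun τ hτ => ?_)
      have hτ0 : 0 ≤ τ := hτ.1.le
      obtain ⟨h1, h2⟩ := EV τ hτ0
      have h3 := lpD_bd (D := D) h1 hZf h2
      have h4 := tri_bd tri (hV.ot τ hτ0) h1 hZ rZ h2 (hLV τ Z hZ hZf hτ0).1
      rw [Real.norm_eq_abs]
      refine (abs_add_le _ _).trans (add_le_add ?_ h4)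
      rw [abs_neg]
      exact h3
    refine ⟨hint, ?_⟩
    have h1 := intervalIntegral.integral_eq_sub_of_hasDeriv_right_of_le ht
      (f := fun τ => pair (V τ) Z) (f' := fun τ => -lpD D (V τ) Z + LV τ Z)
      (fun x hx => ((hLV x Z hZ hZf hx.1).2.continuousWithinAt).mono Icc_subset_Ici_self)
      (fun x hx => (hder x hx.1).hasDerivWithinAt) hint
    rw [h1]
    ring

end Pool.Agent.K1H11.NU
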